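import Pool.Agent.QSN.StmtsE

set_option autoImplicit false

/-! Row ABD of squad QSN: the root spaces of `SL_n (𝔻)` are abelian. -/

namespace Pool.Agent.QSN.H51

open Matrix Finset Pool.Agent.QSX Pool.Agent.QSN

variable {k n : ℕ}

theorem dia_comm (d : Fin n → ℝ) (x : Matrix (Fin n) (Fin n) (Matrix (Fin k) (Fin k) ℝ))
    (i j : Fin n) : (dia k d * x - x * dia k d) i j = (d i - d j) • x i j := by
  rw [Matrix.sub_apply, dia, Matrix.diagonal_mul, Matrix.mul_diagonal, Matrix.smul_mul,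
    Matrix.mul_smul, Matrix.one_mul, Matrix.mul_one, sub_smul]

/-- a nonzero block determines the root on the vectors of sum zero -/
theorem root_of_ne (ρ : bD n k →ₗ[ℝ] ℝ) {x : Matrix (Fin n) (Fin n) (Matrix (Fin k) (Fin k) ℝ)}
    (h : ∀ c : bD n k, diagonal (c : Fin (n * k) → ℝ) * blk k n x -
      blk k n x * diagonal (c : Fin (n * k) → ℝ) = ρ c • blk k n x)
    {i j : Fin n} (hx : x i j ≠ 0) (d : Fin n → ℝ) (hd : ∑ l, d l = 0) :
    d i - d j = ρ ⟨cst k n d, ⟨d, hd, rfl⟩⟩ := by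
  have h1 := h ⟨cst k n d, ⟨d, hd, rfl⟩⟩
  have h2 : blk k n (dia k d * x - x * dia k d) =
      blk k n (ρ ⟨cst k n d, ⟨d, hd, rfl⟩⟩ • x) := by
    rw [map_sub, map_mul, map_mul, blk_dia, map_smul]
    exact h1
  have h3 := congrFun (congrFun ((blk k n).injective h2) i) j
  rw [dia_comm, Matrix.smul_apply] at h3
  have h4 : ((d i - d j) - ρ ⟨cst k n d, ⟨d, hd, rfl⟩⟩) • x i j = 0 := by
    rw [sub_smul, h3, sub_self]
  rcases smul_eq_zero.1 h4 with h5 | h5
  · linarith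
  · exact absurd h5 hx

theorem mul_zero_of_root {𝔻 : Subalgebra ℝ (Matrix (Fin k) (Fin k) ℝ)}
    (ρ : bD n k →ₗ[ℝ] ℝ) {x y : Matrix (Fin n) (Fin n) (Matrix (Fin k) (Fin k) ℝ)}
    (hx0 : x ∈ UD n 𝔻) (hy0 : y ∈ UD n 𝔻)
    (hx : ∀ c : bD n k, diagonal (c : Fin (n * k) → ℝ) * blk k n x -
      blk k n x * diagonal (c : Fin (n * k) → ℝ) = ρ c • blk k n x)
    (hy : ∀ c : bD n k, diagonal (c : Fin (n * k) → ℝ) * blk k n y -
      blk k n y * diagonal (c : Fin (n * k) → ℝ) = ρ c • blk k n y) : x * y = 0 := by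
  refine Matrix.ext fun i j => ?_
  rw [Matrix.mul_apply, Matrix.zero_apply]
  refine Finset.sum_eq_zero fun h _ => ?_
  by_contra hne
  have h1 : x i h ≠ 0 := fun h0 => hne (by rw [h0, zero_mul])
  have h2 : y h j ≠ 0 := fun h0 => hne (by rw [h0, mul_zero])
  have h3 : i < h := not_le.1 fun hle => h1 (hx0.2 i h hle)
  have h4 : h < j := not_le.1 fun hle => h2 (hy0.2 h j hle)
  have hn : (n : ℝ) ≠ 0 := by
    have : 0 < n := i.pos
    exact_mod_cast this.ne'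
  let d : Fin n → ℝ := fun l => (if l = h then 1 else 0) - 1 / (n : ℝ)
  have hd : ∑ l, d l = 0 := by
    show ∑ l, ((if l = h then (1 : ℝ) else 0) - 1 / (n : ℝ)) = 0
    rw [Finset.sum_sub_distrib, Finset.sum_ite_eq' Finset.univ h]
    simp [hn]
  have e1 := root_of_ne ρ hx h1 d hd
  have e2 := root_of_ne ρ hy h2 d hd
  rw [← e2] at e1
  have f1 : d i = 0 - 1 / (n : ℝ) := by
    show (if i = h then (1 : ℝ) else 0) - 1 / (n : ℝ) = _
    rw [if_neg h3.ne]
  have f2 : d h = 1 - 1 / (n : ℝ) := by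
    show (if h = h then (1 : ℝ) else 0) - 1 / (n : ℝ) = _
    rw [if_pos rfl]
  have f3 : d j = 0 - 1 / (n : ℝ) := by
    show (if j = h then (1 : ℝ) else 0) - 1 / (n : ℝ) = _
    rw [if_neg h4.ne']
  rw [f1, f2, f3] at e1
  linarith

theorem abd : AbdStmt := by
  intro k n 𝔻 _ ρ z hz w hw hzr hwr
  obtain ⟨x, hx, rfl⟩ := hz
  obtain ⟨y, hy, rfl⟩ := hw
  have h1 := mul_zero_of_root ρ hx hy hzr hwr
  have h2 := mul_zero_of_root ρ hy hx hwr hzr
  show blk k n x * blk k n y - blk k n y * blk k n x = 0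
  rw [← map_mul, ← map_mul, h1, h2, sub_self]

end Pool.Agent.QSN.H51
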